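import Pool.Agent.PST.StmtsU

open scoped BigOperators TensorProduct PowerSeries

noncomputable section

namespace Pool.Agent.PST.U.H12

theorem chp : ChpStmt := by
  intro R A _ _ _ _ _ z z₁ u u' hz hz₁ hu hu'
  rcases subsingleton_or_nontrivial R with hR | hR
  · have : Subsingleton A := Module.subsingleton R A
    exact ⟨0, fun _ => 1, isUnit_one, Subsingleton.elim _ _⟩
  have hz₁u : z₁ * u = 1 := by rw [hz₁]; exact hu
  have hzu' : z * u' = 1 := by rw [hz]; exact hu'
  set c : A := u * z with hc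
  have hcc' : c * (u' * z₁) = 1 := by
    rw [hc, mul_assoc, ← mul_assoc z, hzu', one_mul, hu]
  have hc'c : (u' * z₁) * c = 1 := by
    rw [hc, mul_assoc, ← mul_assoc z₁, hz₁u, one_mul, hu']
  have hcz₁ : c * z₁ = z := by
    rw [hc, hz u |>.symm, mul_assoc, hu, mul_one]
  have hunit : IsUnit c := ⟨⟨c, u' * z₁, hcc', hc'c⟩, rfl⟩
  set M : Module.End R A := Algebra.lmul R A c with hM
  have hMu : IsUnit M := hunit.map (Algebra.lmul R A)
  set χ : Polynomial R := LinearMap.charpoly M with hχ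
  have h0 : Polynomial.aeval M χ = 0 := LinearMap.aeval_self_charpoly M
  have h1 : Polynomial.aeval c χ = 0 := by
    have h2 : Algebra.lmul R A (Polynomial.aeval c χ) = 0 := by
      rw [← Polynomial.aeval_algHom_apply, ← hM]; exact h0
    have h3 := congrArg (fun f : Module.End R A => f 1) h2
    simpa using h3
  refine ⟨χ.natDegree, χ.coeff, ?_, ?_⟩
  · have hd : IsUnit (LinearMap.det M) := hMu.map LinearMap.det
    rw [LinearMap.det_eq_sign_charpoly_coeff] at hd
    exact isUnit_of_mul_isUnit_right hd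
  · have h4 : (∑ i ∈ Finset.range (χ.natDegree + 1), χ.coeff i • c ^ i) * z₁ ^ χ.natDegree = 0 := by
      rw [← Polynomial.aeval_eq_sum_range, h1, zero_mul]
    rw [Finset.sum_mul] at h4
    rw [← h4]
    refine Finset.sum_congr rfl fun i hi => ?_
    have hi' : i ≤ χ.natDegree := Nat.lt_succ_iff.1 (Finset.mem_range.1 hi)
    have hcom : Commute c z₁ := (hz₁ c).symm
    rw [smul_mul_assoc]
    congr 1
    calc z ^ i * z₁ ^ (χ.natDegree - i) = (c * z₁) ^ i * z₁ ^ (χ.natDegree - i) := by rw [hcz₁]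
      _ = c ^ i * (z₁ ^ i * z₁ ^ (χ.natDegree - i)) := by rw [hcom.mul_pow, mul_assoc]
      _ = c ^ i * z₁ ^ χ.natDegree := by rw [← pow_add, Nat.add_sub_cancel' hi']

end Pool.Agent.PST.U.H12
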