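import Pool.Agent.PST.StmtsU

open scoped BigOperators TensorProduct PowerSeries

noncomputable section

namespace Pool.Agent.PST.U.H12

open Polynomial in
theorem fit : FitStmt := by
  intro F B _ _ _ _ r hr hF
  have hcen : ∀ p : F[X], ∀ a : B, aeval r p * a = a * aeval r p := by
    intro p a
    have h1 : aeval r p ∈ Algebra.adjoin F ({r} : Set B) := aeval_mem_adjoin_singleton F r
    have h2 : Algebra.adjoin F ({r} : Set B) ≤ Subalgebra.center F B := by
      refine Algebra.adjoin_le ?_
      intro x hx
      rw [Set.mem_singleton_iff] at hx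
      subst hx
      exact Subalgebra.mem_center_iff.2 fun b => (hr b).symm
    exact (Subalgebra.mem_center_iff.1 (h2 h1) a).symm
  have hint : IsIntegral F r := Algebra.IsIntegral.isIntegral r
  obtain ⟨q, hq, hnd⟩ := exists_eq_pow_rootMultiplicity_mul_and_not_dvd (minpoly F r)
    (minpoly.ne_zero hint) 0
  set n := rootMultiplicity 0 (minpoly F r) with hn
  have hcop : IsCoprime ((X - Polynomial.C (0 : F)) ^ (n + 1)) q :=
    IsCoprime.pow_left ((irreducible_X_sub_C (0 : F)).coprime_iff_not_dvd.2 hnd)
  obtain ⟨a, b, hab⟩ := hcop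
  have hX : (X - Polynomial.C (0 : F)) = X := by rw [map_zero, sub_zero]
  rw [hX] at hab hq
  have hmin : aeval r (X ^ n * q) = 0 := by rw [← hq]; exact minpoly.aeval F r
  set f : _ := aeval r (b * q) with hf
  have hf1 : aeval r (a * X ^ (n + 1)) = 1 - f := by
    have h := congrArg (aeval r) hab
    rw [map_add, map_one] at h
    rw [hf, ← h]; abel
  have hz : ∀ p : F[X], aeval r (p * (X ^ n * q)) = 0 := by
    intro p; rw [map_mul, hmin, mul_zero]
  have hid : f * f = f := by
    have h1 : f - f * f = f * (1 - f) := by rw [mul_sub, mul_one]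
    have h2 : f * (1 - f) = 0 := by
      rw [← hf1, hf, ← map_mul]
      have : b * q * (a * X ^ (n + 1)) = (b * a * X) * (X ^ n * q) := by ring
      rw [this]; exact hz _
    rw [h2] at h1
    exact (sub_eq_zero.1 h1).symm
  have h0 : f = 0 := by
    refine hF f (hcen _) hid ⟨n, ?_⟩
    have : r ^ n * f = aeval r (b * (X ^ n * q)) := by
      rw [hf, show b * (X ^ n * q) = X ^ n * (b * q) by ring, map_mul (aeval r) (X ^ n), map_pow,
        aeval_X]
    rw [this]; exact hz _
  refine ⟨aeval r (a * X ^ n), ?_⟩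
  have : aeval r (a * X ^ n) * r = aeval r (a * X ^ (n + 1)) := by
    rw [pow_succ, ← mul_assoc, map_mul (aeval r) (a * X ^ n), aeval_X]
  rw [this, hf1, h0, sub_zero]

end Pool.Agent.PST.U.H12
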