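import Pool.Agent.PST.StmtsU

open scoped BigOperators TensorProduct PowerSeries

noncomputable section

namespace Pool.Agent.PST.U.H12

theorem unr : UnrStmt := by
  intro F F' As _ _ _ _ _ z z₁ u d a hinj hz hz₁ ha0 hrel hu
  have hone : (1 : F' ⊗[F⟦X⟧] As) = (1 : F') ⊗ₜ[F⟦X⟧] (1 : As) := rfl
  -- the inclusion
  set j : As →ₐ[F⟦X⟧] F' ⊗[F⟦X⟧] As := Algebra.TensorProduct.includeRight with hj
  have hjz : ∀ m : As, (1 : F') ⊗ₜ[F⟦X⟧] m = j m := fun m => rfl
  rw [hjz] at hu ⊢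
  -- `j z₁` commutes with everything of the form `j m`; `u` commutes with `j z₁`
  have hcen : ∀ (m : As), (∀ b, m * b = b * m) → ∀ t : F' ⊗[F⟦X⟧] As, j m * t = t * j m := by
    intro m hm t
    induction t using TensorProduct.induction_on with
    | zero => rw [mul_zero, zero_mul]
    | tmul s b =>
      rw [← hjz, Algebra.TensorProduct.tmul_mul_tmul, Algebra.TensorProduct.tmul_mul_tmul, hm,
        one_mul, mul_one]
    | add p q hp hq => rw [mul_add, add_mul, hp, hq]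
  have hpow : u ^ d * j z₁ ^ d = 1 := by
    have hc : Commute u (j z₁) := (hcen z₁ hz₁ u).symm
    rw [← hc.mul_pow, hu, one_pow]
  rw [Finset.sum_range_succ'] at hrel
  set g : As := ∑ i ∈ Finset.range d, (PowerSeries.C (a (i + 1)) : F⟦X⟧) •
    (z ^ i * z₁ ^ (d - (i + 1))) with hg
  have hrel2 : g * z + (PowerSeries.C (a 0) : F⟦X⟧) • z₁ ^ d = 0 := by
    have h1 : ∑ i ∈ Finset.range d, (PowerSeries.C (a (i + 1)) : F⟦X⟧) •
        (z ^ (i + 1) * z₁ ^ (d - (i + 1))) = g * z := by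
      rw [hg, Finset.sum_mul]
      refine Finset.sum_congr rfl fun i _ => ?_
      rw [smul_mul_assoc, pow_succ, mul_assoc, hz, mul_assoc]
    rw [← h1]
    simpa using hrel
  have hrel3 := congrArg j hrel2
  rw [map_add, map_mul, map_smul, map_pow, map_zero] at hrel3
  have hr4 : j g * j z = -((PowerSeries.C (a 0) : F⟦X⟧) • (j z₁ ^ d)) :=
    eq_neg_of_add_eq_zero_left hrel3
  refine ⟨-((PowerSeries.C (a 0)⁻¹ : F⟦X⟧) • (u ^ d * j g)), ?_⟩
  rw [neg_mul, smul_mul_assoc, mul_assoc, hr4, mul_neg, mul_smul_comm, hpow, smul_neg, neg_neg,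
    smul_smul, ← map_mul, inv_mul_cancel₀ ha0, map_one, one_smul]

end Pool.Agent.PST.U.H12
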